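import Pool.Agent.H923R2.FZ.Stubs2

set_option autoImplicit false

namespace Pool.Agent.H923R2.FZ.T_LEBF

open Pool.Agent.H923R2.FP Pool.Agent.H923R2.FZ MeasureTheory

lemma integrable' (f : C(unitInterval, ℂ)) : Integrable (fun x => f x) (volume : Measure unitInterval) := by
  exact f.continuous.integrable_of_hasCompactSupport (HasCompactSupport.of_compactSpace _)

lemma openPos : (volume : Measure unitInterval).IsOpenPosMeasure where
  open_pos U hU hne := by
    obtain ⟨a, b, hab, hsub⟩ := hU.exists_Ioo_subset hne
    have h1 : volume (Set.Ioo a b) ≤ volume U := measure_mono hsub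
    rw [unitInterval.volume_Ioo] at h1
    have h2 : (0 : ENNReal) < ENNReal.ofReal ((b : ℝ) - a) := by
      rw [ENNReal.ofReal_pos]
      have : (a : ℝ) < b := hab
      linarith
    exact (h2.trans_le h1).ne'

theorem t_LEBF : S_LEBF := by
  have := openPos
  let l : C(unitInterval, ℂ) →ₗ[ℂ] ℂ :=
    { toFun := fun f => ∫ x : unitInterval, f x
      map_add' := fun f g => by
        simp only [ContinuousMap.add_apply]
        exact integral_add (integrable' f) (integrable' g)
      map_smul' := fun c f => by
        simp only [ContinuousMap.smul_apply, RingHom.id_apply]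
        exact integral_smul c _ }
  have hl : ∀ f, l f = ∫ x : unitInterval, f x := fun f => rfl
  have hre : ∀ x : C(unitInterval, ℂ), (l (star x * x)).re = ∫ t : unitInterval, ‖x t‖ ^ 2 := by
    intro x
    rw [hl]
    have h1 : (∫ t : unitInterval, (star x * x) t) = ((∫ t : unitInterval, ‖x t‖ ^ 2 : ℝ) : ℂ) := by
      rw [← integral_complex_ofReal]
      congr 1
      funext t
      simp only [ContinuousMap.mul_apply, ContinuousMap.star_apply]
      have := Complex.conj_mul' (x t)
      simpa using this
    rw [h1, Complex.ofReal_re]
  refine ⟨l, ⟨?_, ?_, ?_, ?_, ?_, ?_⟩, fun x => rfl⟩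
  · rw [hl]
    simp
  · intro x y
    rw [mul_comm]
  · intro x
    rw [hl, hl]
    have := integral_conj (f := fun t => x t) (μ := (volume : Measure unitInterval))
    simpa using this
  · intro x
    rw [hre]
    positivity
  · intro x hx
    rw [hre] at hx
    have hc : Continuous fun t : unitInterval => ‖x t‖ ^ 2 := by fun_prop
    have h0 : (fun t : unitInterval => ‖x t‖ ^ 2) = 0 := by
      have hi : Integrable (fun t : unitInterval => ‖x t‖ ^ 2) (volume : Measure unitInterval) :=
        hc.integrable_of_hasCompactSupport (HasCompactSupport.of_compactSpace _)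
      have h1 := (integral_eq_zero_iff_of_nonneg (fun t => by positivity) hi).1 hx
      exact (Continuous.ae_eq_iff_eq (volume : Measure unitInterval) hc continuous_zero).1 h1
    ext t
    have := congrFun h0 t
    simpa using this
  · intro x
    rw [hl]
    refine (norm_integral_le_of_norm_le_const (C := ‖x‖) (Filter.Eventually.of_forall fun t => x.norm_coe_le_norm t)).trans ?_
    simp

end Pool.Agent.H923R2.FZ.T_LEBF
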