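import Pool.Agent.H923R2.FZ.Stubs2
import Pool.Agent.H237R2.FP_SEP

set_option autoImplicit false

namespace Pool.Agent.H923R2.FZ.T_SEPW

open Pool.Agent.H923R2.FP Pool.Agent.H923R2.FZ TopologicalSpace

theorem t_SEPW : S_SEPW := by
  intro J _ D _ _ t A _ τ e f h
  have hgen := h.gen
  set S : Set A := (⋃ j, Set.range (e j)) ∪ ⋃ n, Set.range (f n) with hS
  have hc : ∀ (B : Type) [CStarAlgebra B] (g : B →⋆ₐ[ℂ] A), Continuous g := by
    intro B _ g
    refine AddMonoidHomClass.continuous_of_bound g 1 fun x => ?_
    rw [one_mul]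
    exact NonUnitalStarAlgHom.norm_apply_le g x
  have hSsep : IsSeparable S := by
    refine IsSeparable.union (IsSeparable.iUnion fun j => ?_) (IsSeparable.iUnion fun n => ?_)
    · exact isSeparable_range (hc _ (e j))
    · exact isSeparable_range (hc _ (f n))
  have hT : IsSeparable (S ∪ star S) := by
    refine hSsep.union ?_
    have : star S = star '' S := by
      ext x
      simp
    rw [this]
    exact hSsep.image continuous_star
  have h1 : IsSeparable (StarAlgebra.adjoin ℂ S : Set A) := by
    have h2 : (StarAlgebra.adjoin ℂ S : Set A) =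
        (Submodule.span ℂ (Submonoid.closure (S ∪ star S) : Set A) : Set A) := by
      rw [← Algebra.adjoin_eq_span, ← StarAlgebra.adjoin_toSubalgebra]
      rfl
    rw [h2]
    exact (Pool.Agent.H923R2.FP.T_SEP.sep_closure hT).span
  have h3 : IsSeparable (Set.univ : Set A) := by
    have h4 : (Set.univ : Set A) = closure (StarAlgebra.adjoin ℂ S : Set A) := by
      rw [← StarSubalgebra.topologicalClosure_coe, hgen]
      rfl
    rw [h4]
    exact h1.closure
  exact isSeparable_univ_iff.1 h3

end Pool.Agent.H923R2.FZ.T_SEPW
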